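import Pool.Agent.R58.OrthoDeriv

/-! Nonlinearity of the ortho-derivative of a quadratic APN function: it is zero for some
quadratic APN function in dimension three, and never zero in dimension at least four. -/

namespace Pool.Agent.Results.MP_4cfb12_co.DimensionThree

open Finset Pool.Agent.R58.Ortho

/-- the quadratic APN function `(x_1 x_2, x_0 x_2, x_0 x_1)` -/
def F3 : (Fin 3 → ZMod 2) → (Fin 3 → ZMod 2) :=
  fun x => ![x 1 * x 2, x 0 * x 2, x 0 * x 1]

lemma F3_quad : IsQuadratic F3 := by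
  refine ⟨fun _ => 0, fun _ _ => 0, fun i j k => if i ≠ j ∧ i ≠ k then 1 else 0, ?_, ?_⟩
  · intro x i
    fin_cases i <;> simp [F3, Fin.sum_univ_three]
  · exact ⟨0, 1, 2, by decide, by decide⟩

lemma cross (a0 a1 a2 y0 y1 y2 : ZMod 2) (ha : ¬ (a0 = 0 ∧ a1 = 0 ∧ a2 = 0))
    (h0 : a1 * y2 + a2 * y1 = 0) (h1 : a0 * y2 + a2 * y0 = 0) (h2 : a0 * y1 + a1 * y0 = 0) :
    (y0 = 0 ∧ y1 = 0 ∧ y2 = 0) ∨ (y0 = a0 ∧ y1 = a1 ∧ y2 = a2) := by
  revert a0 a1 a2 y0 y1 y2
  decide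

lemma step (a0 a1 a2 x0 x1 x2 y0 y1 y2 : ZMod 2) (ha : ¬ (a0 = 0 ∧ a1 = 0 ∧ a2 = 0))
    (h0 : (x1 + a1) * (x2 + a2) + x1 * x2 = (y1 + a1) * (y2 + a2) + y1 * y2)
    (h1 : (x0 + a0) * (x2 + a2) + x0 * x2 = (y0 + a0) * (y2 + a2) + y0 * y2)
    (h2 : (x0 + a0) * (x1 + a1) + x0 * x1 = (y0 + a0) * (y1 + a1) + y0 * y1) :
    (y0 = x0 ∧ y1 = x1 ∧ y2 = x2) ∨ (y0 = x0 + a0 ∧ y1 = x1 + a1 ∧ y2 = x2 + a2) := by
  have t : ∀ a a' x x' y y' : ZMod 2,
      (x + a) * (x' + a') + x * x' = (y + a) * (y' + a') + y * y' →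
      a * (x' + y') + a' * (x + y) = 0 := by decide
  have e0 := t _ _ _ _ _ _ h0
  have e1 := t _ _ _ _ _ _ h1
  have e2 := t _ _ _ _ _ _ h2
  have u : ∀ a x y : ZMod 2, (x + y = 0 → y = x) ∧ (x + y = a → y = x + a) := by decide
  rcases cross a0 a1 a2 (x0 + y0) (x1 + y1) (x2 + y2) ha e0 e1 e2 with h | h
  · exact Or.inl ⟨(u 0 _ _).1 h.1, (u 0 _ _).1 h.2.1, (u 0 _ _).1 h.2.2⟩
  · exact Or.inr ⟨(u _ _ _).2 h.1, (u _ _ _).2 h.2.1, (u _ _ _).2 h.2.2⟩

lemma F3_apn : IsAPN F3 := by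
  intro a ha b
  by_cases hne : (univ.filter (fun x => DD F3 a x = b)).Nonempty
  · obtain ⟨x, hx⟩ := hne
    rw [Finset.mem_filter] at hx
    have hsub : univ.filter (fun x => DD F3 a x = b) ⊆ {x, x + a} := by
      intro y hy
      rw [Finset.mem_filter] at hy
      have h := hx.2.trans hy.2.symm
      have h0 := congrFun h 0
      have h1 := congrFun h 1
      have h2 := congrFun h 2
      have hna : ¬ (a 0 = 0 ∧ a 1 = 0 ∧ a 2 = 0) := by
        rintro ⟨b0, b1, b2⟩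
        apply ha
        funext i
        fin_cases i
        · exact b0
        · exact b1
        · exact b2
      rw [Finset.mem_insert, Finset.mem_singleton]
      rcases step (a 0) (a 1) (a 2) (x 0) (x 1) (x 2) (y 0) (y 1) (y 2) hna h0 h1 h2 with h | h
      · left
        funext i
        fin_cases i
        · exact h.1
        · exact h.2.1
        · exact h.2.2
      · right
        funext i
        fin_cases i
        · exact h.1
        · exact h.2.1
        · exact h.2.2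
    exact (Finset.card_le_card hsub).trans (Finset.card_le_two)
  · rw [Finset.not_nonempty_iff_eq_empty] at hne
    rw [hne]; simp

lemma F3_ortho : IsOrtho F3 (fun x => x) := by
  refine ⟨rfl, fun a ha => ⟨ha, fun x => ?_⟩⟩
  have t : ∀ a0 a1 a2 x0 x1 x2 : ZMod 2,
      a0 * ((x1 + a1) * (x2 + a2) + x1 * x2 + ((0 + a1) * (0 + a2) + 0 * 0)) +
      a1 * ((x0 + a0) * (x2 + a2) + x0 * x2 + ((0 + a0) * (0 + a2) + 0 * 0)) +
      a2 * ((x0 + a0) * (x1 + a1) + x0 * x1 + ((0 + a0) * (0 + a1) + 0 * 0)) = 0 := by decide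
  have := t (a 0) (a 1) (a 2) (x 0) (x 1) (x 2)
  unfold dot
  rw [Fin.sum_univ_three]
  exact this

lemma F3_NL : NL (fun x : Fin 3 → ZMod 2 => x) = 0 := by
  unfold NL
  rw [Nat.sInf_eq_zero]
  left
  refine ⟨fun _ => 1, ?_, fun _ => 1, 0, ?_⟩
  · intro h
    have := congrFun h 0
    revert this; decide
  · simp

/-- Q1 of MP_4cfb12_co, with the exact set of dimensions: yes for `n = 3`, no for every `n ≥ 4`. -/
theorem result :
    (∃ F p : (Fin 3 → ZMod 2) → (Fin 3 → ZMod 2),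
      IsQuadratic F ∧ IsAPN F ∧ IsOrtho F p ∧ NL p = 0) ∧
    (∀ n : ℕ, 4 ≤ n → ∀ F p : (Fin n → ZMod 2) → (Fin n → ZMod 2),
      IsQuadratic F → IsAPN F → IsOrtho F p → NL p ≠ 0) := by
  refine ⟨⟨F3, fun x => x, F3_quad, F3_apn, F3_ortho, F3_NL⟩, ?_⟩
  intro n hn F p hF hA hp h
  unfold NL at h
  rw [Nat.sInf_eq_zero] at h
  rcases h with h | h
  · obtain ⟨b, hb, u, c, h0⟩ := h
    have h1 : ∀ x, dot b (p x) = dot u x + c := by
      intro x
      by_contra hx
      have : x ∈ univ.filter (fun x => dot b (p x) ≠ dot u x + c) := by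
        rw [Finset.mem_filter]; exact ⟨Finset.mem_univ _, hx⟩
      rw [Finset.card_eq_zero.mp h0.symm] at this
      simp at this
    exact no_affine hn F p hF hA hp b hb u c h1
  · have : (univ.filter (fun x => dot (fun _ => 1) (p x) ≠ dot (0 : Fin n → ZMod 2) x + 0)).card ∈
        {k : ℕ | ∃ b : Fin n → ZMod 2, b ≠ 0 ∧ ∃ (u : Fin n → ZMod 2) (c : ZMod 2),
          k = (univ.filter (fun x => dot b (p x) ≠ dot u x + c)).card} := by
      refine ⟨fun _ => 1, ?_, 0, 0, rfl⟩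
      intro h
      have := congrFun h ⟨0, by omega⟩
      revert this; simp
    rw [h] at this
    exact this

end Pool.Agent.Results.MP_4cfb12_co.DimensionThree
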