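import Mathlib

set_option autoImplicit false

/-!
# The nonlinearity of the ortho-derivative of a quadratic APN function is zero only for `n = 3`

For `n = 3` the ortho-derivative of `F (x) = (x₁ x₂, x₀ x₂, x₀ x₁)` is the identity.

Let `n ≥ 4`, and suppose that `b · π (a) = ℓ (a)` for all `a`, with `b ≠ 0` and `ℓ` affine. Then `ℓ` is
linear. Let `V₀` be its kernel and `B (x, y) = F (x + y) + F x + F y + F 0`. A nonzero vector `a` is in
`V₀` if and only if `b` is in the image of `B (a, ·)`. So the sets `{a, y, a + y}` with `B (a, y) = b`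
partition the nonzero vectors of `V₀`. Choose `v` with `v · b = 1` and let `q (z) = v · (F z + F 0)`. Then
the sum of `1 + q (z)` over every set of the partition is `v · b + 1 = 0`. But the sum of `1 + q (z)`
over `V₀` is also `0`, as the degree of `q` is at most `2` and the dimension of `V₀` is at least `3`.
So `1 + q (0) = 0`, which is false.
-/

namespace Pool.Agent.Results.MP_4cfb12_co.OnlyDimThree

open Finset

/-- the standard dot product -/
def dot {n : ℕ} (u x : Fin n → ZMod 2) : ZMod 2 := ∑ i, u i * x i

/-- the derivative `D_a F` -/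
def D {n : ℕ} (F : (Fin n → ZMod 2) → (Fin n → ZMod 2)) (a x : Fin n → ZMod 2) :
    Fin n → ZMod 2 := F (x + a) + F x

/-- `F` is APN: for `a ≠ 0` every equation `D_a F (x) = b` has at most two solutions. -/
def IsAPN {n : ℕ} (F : (Fin n → ZMod 2) → (Fin n → ZMod 2)) : Prop :=
  ∀ a, a ≠ 0 → ∀ b, (univ.filter fun x => D F a x = b).card ≤ 2

/-- The algebraic degree of `F` is at most `d`: every coordinate of `F` is a sum of monomials
`∏ j ∈ S, x j` with `S.card ≤ d`. -/
def DegLE {n : ℕ} (d : ℕ) (F : (Fin n → ZMod 2) → (Fin n → ZMod 2)) : Prop :=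
  ∃ c : Fin n → Finset (Fin n) → ZMod 2, (∀ i S, d < S.card → c i S = 0) ∧
    ∀ x i, F x i = ∑ S, c i S * ∏ j ∈ S, x j

/-- `F` is quadratic: the algebraic degree is `2`. -/
def IsQuadratic {n : ℕ} (F : (Fin n → ZMod 2) → (Fin n → ZMod 2)) : Prop :=
  DegLE 2 F ∧ ¬ DegLE 1 F

/-- `P` is the ortho-derivative of `F`: `P 0 = 0` and for `a ≠ 0` the vector `P a` is nonzero and
orthogonal to all vectors `D_a F (x) + D_a F (0)`. -/
def IsOrthoDerivative {n : ℕ} (F P : (Fin n → ZMod 2) → (Fin n → ZMod 2)) : Prop :=
  P 0 = 0 ∧ ∀ a, a ≠ 0 → P a ≠ 0 ∧ ∀ x, dot (P a) (D F a x + D F a 0) = 0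

/-- the nonlinearity: the least number of `x` with `b · G (x) ≠ ℓ (x)`, for `b ≠ 0` and
`ℓ (x) = u · x + c` affine -/
noncomputable def NL {n : ℕ} (G : (Fin n → ZMod 2) → (Fin n → ZMod 2)) : ℕ :=
  sInf {m | ∃ (b u : Fin n → ZMod 2) (c : ZMod 2), b ≠ 0 ∧
    m = (univ.filter fun x => dot b (G x) ≠ dot u x + c).card}

section

variable {n : ℕ}

lemma add_self' (x : Fin n → ZMod 2) : x + x = 0 := by
  funext i
  exact CharTwo.add_self_eq_zero (x i)

lemma dot_add (u x y : Fin n → ZMod 2) : dot u (x + y) = dot u x + dot u y := by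
  simp [dot, mul_add, sum_add_distrib]

lemma dot_zero (u : Fin n → ZMod 2) : dot u 0 = 0 := by simp [dot]

lemma dot_comm (u x : Fin n → ZMod 2) : dot u x = dot x u := by
  simp [dot, mul_comm]

lemma exists_dot_eq_one (b : Fin n → ZMod 2) (hb : b ≠ 0) : ∃ v, dot v b = 1 := by
  obtain ⟨i, hi⟩ := Function.ne_iff.1 hb
  refine ⟨Pi.single i 1, ?_⟩
  have h1 : dot (Pi.single i 1) b = b i := by
    simp [dot, Pi.single_apply]
  rw [h1]
  have : ∀ t : ZMod 2, t ≠ 0 → t = 1 := by decide
  exact this _ hi

/-- the third derivative of a function of degree at most `2` is zero -/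
lemma third {F : (Fin n → ZMod 2) → (Fin n → ZMod 2)} (h : DegLE 2 F)
    (x y z : Fin n → ZMod 2) :
    F (x + y + z) + F (x + y) + F (x + z) + F (y + z) + F x + F y + F z + F 0 = 0 := by
  obtain ⟨c, hc, hF⟩ := h
  funext i
  simp only [Pi.add_apply, Pi.zero_apply]
  rw [hF, hF, hF, hF, hF, hF, hF, hF]
  simp only [← sum_add_distrib]
  refine sum_eq_zero fun S _ => ?_
  by_cases hS : 2 < S.card
  · simp [hc i S hS]
  · have h3 : S.card = 0 ∨ S.card = 1 ∨ S.card = 2 := by omega
    rcases h3 with h3 | h3 | h3
    · rw [card_eq_zero] at h3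
      subst h3
      simp only [prod_empty, mul_one]
      generalize c i ∅ = t
      revert t
      decide
    · obtain ⟨j, rfl⟩ := card_eq_one.1 h3
      simp only [prod_singleton, Pi.add_apply, Pi.zero_apply]
      generalize c i {j} = t
      generalize x j = x1
      generalize y j = y1
      generalize z j = z1
      revert t x1 y1 z1
      decide
    · obtain ⟨j, k, hjk, rfl⟩ := card_eq_two.1 h3
      rw [prod_pair hjk, prod_pair hjk, prod_pair hjk, prod_pair hjk, prod_pair hjk, prod_pair hjk,
        prod_pair hjk, prod_pair hjk]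
      simp only [Pi.add_apply, Pi.zero_apply]
      generalize c i {j, k} = t
      generalize x j = x1
      generalize y j = y1
      generalize z j = z1
      generalize x k = x2
      generalize y k = y2
      generalize z k = z2
      revert t x1 y1 z1 x2 y2 z2
      decide

/-- the sum of a function with third derivative zero -/
lemma sum_third (m : ℕ) (q : (Fin (m + 3) → ZMod 2) → ZMod 2)
    (hq : ∀ x y z, q (x + y + z) + q (x + y) + q (x + z) + q (y + z) + q x + q y + q z + q 0 = 0) :
    ∑ x, q x = 0 := by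
  have hcons : ∀ (k : ℕ) (f : (Fin (k + 1) → ZMod 2) → ZMod 2),
      ∑ x, f x = ∑ x : Fin k → ZMod 2, (f (Fin.cons 0 x) + f (Fin.cons 1 x)) := by
    intro k f
    rw [← (Fin.consEquiv (fun _ : Fin (k + 1) => ZMod 2)).sum_comp, Fintype.sum_prod_type,
      sum_comm]
    refine sum_congr rfl fun x _ => ?_
    exact Fin.sum_univ_two fun a : Fin 2 => f (Fin.cons (α := fun _ => ZMod 2) a x)
  rw [hcons, sum_add_distrib, hcons (m + 1) fun x => q (Fin.cons 0 x),
    hcons (m + 1) fun x => q (Fin.cons 1 x), ← sum_add_distrib]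
  set e0 : Fin (m + 3) → ZMod 2 := Fin.cons 1 (Fin.cons 0 0) with he0
  set e1 : Fin (m + 3) → ZMod 2 := Fin.cons 0 (Fin.cons 1 0) with he1
  have h1 : ∀ w : Fin (m + 1) → ZMod 2,
      q (Fin.cons 0 (Fin.cons 0 w)) + q (Fin.cons 0 (Fin.cons 1 w)) +
        (q (Fin.cons 1 (Fin.cons 0 w)) + q (Fin.cons 1 (Fin.cons 1 w))) =
      q (e0 + e1) + q e0 + q e1 + q 0 := by
    intro w
    set W : Fin (m + 3) → ZMod 2 := Fin.cons 0 (Fin.cons 0 w) with hW
    have h2 : (Fin.cons 0 (Fin.cons 1 w) : Fin (m + 3) → ZMod 2) = e1 + W := by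
      funext i
      refine Fin.cases ?_ (fun j => Fin.cases ?_ (fun l => ?_) j) i <;> simp [he1, hW]
    have h3 : (Fin.cons 1 (Fin.cons 0 w) : Fin (m + 3) → ZMod 2) = e0 + W := by
      funext i
      refine Fin.cases ?_ (fun j => Fin.cases ?_ (fun l => ?_) j) i <;> simp [he0, hW]
    have h4 : (Fin.cons 1 (Fin.cons 1 w) : Fin (m + 3) → ZMod 2) = e0 + e1 + W := by
      funext i
      refine Fin.cases ?_ (fun j => Fin.cases ?_ (fun l => ?_) j) i <;> simp [he0, he1, hW]
    rw [h2, h3, h4]
    have h5 := hq e0 e1 W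
    have h6 : ∀ a b c d e f g h : ZMod 2, a + b + c + d + e + f + g + h = 0 →
        g + d + (c + a) = b + e + f + h := by decide
    exact h6 _ _ _ _ _ _ _ _ h5
  rw [sum_congr rfl fun w _ => h1 w, sum_const, card_univ, Fintype.card_fun, ZMod.card,
    Fintype.card_fin, pow_succ, mul_comm, mul_nsmul]
  have h7 : ∀ t : ZMod 2, 2 • t = 0 := by decide
  rw [h7, smul_zero]

/-- the sum over the points of the lines -/
lemma sum_lines (B : (Fin n → ZMod 2) → (Fin n → ZMod 2) → (Fin n → ZMod 2))
    (hsymm : ∀ x y, B x y = B y x) (hadd : ∀ x y z, B x (y + z) = B x y + B x z)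
    (hself : ∀ x, B x x = 0) (hker : ∀ a x, a ≠ 0 → B a x = 0 → x = 0 ∨ x = a)
    (b : Fin n → ZMod 2) (hb : b ≠ 0) (g : (Fin n → ZMod 2) → ZMod 2)
    (hg : ∀ a y, B a y = b → g a + g y + g (a + y) = 0) (S : Finset (Fin n → ZMod 2))
    (hS : ∀ a, a ∈ S ↔ ∃ y, B a y = b) : ∑ a ∈ S, g a = 0 := by
  classical
  have hzero : ∀ x, B x 0 = 0 := by
    intro x
    have := hadd x 0 0
    rw [add_zero] at this
    simpa using this
  have hadd' : ∀ x y z, B (x + y) z = B x z + B y z := by
    intro x y z
    rw [hsymm, hadd, hsymm z x, hsymm z y]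
  let line : (Fin n → ZMod 2) → Finset (Fin n → ZMod 2) := fun z =>
    univ.filter fun t => t = z ∨ B z t = b
  have hline : ∀ z t, B z t = b → line z = {z, t, z + t} := by
    intro z t h
    have hz : z ≠ 0 := by
      rintro rfl
      rw [hsymm, hzero] at h
      exact hb h.symm
    ext s
    simp only [line, mem_filter, mem_univ, true_and, mem_insert, mem_singleton]
    constructor
    · rintro (h1 | h1)
      · exact Or.inl h1
      · right
        have h2 : B z (s + t) = 0 := by rw [hadd, h1, h, add_self']
        rcases hker z (s + t) hz h2 with h3 | h3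
        · left
          calc s = s + t + t := by rw [add_assoc, add_self', add_zero]
            _ = t := by rw [h3, zero_add]
        · right
          calc s = s + t + t := by rw [add_assoc, add_self', add_zero]
            _ = z + t := by rw [h3]
    · rintro (h1 | h1 | h1)
      · exact Or.inl h1
      · right; rw [h1, h]
      · right; rw [h1, hadd, hself, zero_add, h]
  rw [← sum_fiberwise_of_maps_to (t := S.image line) (g := line)
    (fun a ha => mem_image_of_mem _ ha)]
  refine sum_eq_zero fun L hL => ?_
  obtain ⟨z, hz, rfl⟩ := mem_image.1 hL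
  obtain ⟨t, ht⟩ := (hS z).1 hz
  have h1 := hline z t ht
  have h2 : line t = line z := by
    rw [h1, hline t z (by rw [hsymm]; exact ht), add_comm t z]
    ext s; simp only [mem_insert, mem_singleton]; tauto
  have h3B : B (z + t) z = b := by rw [hadd', hself, zero_add, hsymm, ht]
  have h3 : line (z + t) = line z := by
    rw [h1, hline (z + t) z h3B]
    have : z + t + z = t := by rw [add_comm z t, add_assoc, add_self', add_zero]
    rw [this]
    ext s; simp only [mem_insert, mem_singleton]; tauto
  have h4 : (S.filter fun a => line a = line z) = {z, t, z + t} := by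
    ext a
    rw [mem_filter]
    constructor
    · rintro ⟨-, ha⟩
      rw [← h1, ← ha]
      simp [line]
    · intro ha
      simp only [mem_insert, mem_singleton] at ha
      rcases ha with rfl | rfl | rfl
      · exact ⟨hz, rfl⟩
      · exact ⟨(hS _).2 ⟨z, by rw [hsymm]; exact ht⟩, h2⟩
      · exact ⟨(hS _).2 ⟨z, h3B⟩, h3⟩
  have hzt : z ≠ t := by
    rintro rfl
    rw [hself] at ht
    exact hb ht.symm
  have hz0 : z ≠ 0 := by
    rintro rfl
    rw [hsymm, hzero] at ht
    exact hb ht.symm
  have ht0 : t ≠ 0 := by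
    rintro rfl
    rw [hzero] at ht
    exact hb ht.symm
  rw [h4, sum_insert, sum_insert, sum_singleton]
  · rw [← add_assoc]; exact hg z t ht
  · rw [mem_singleton]
    intro h
    exact hz0 (by simpa using h.symm)
  · rw [mem_insert, mem_singleton]
    rintro (h | h)
    · exact hzt h
    · exact ht0 (by simpa using h.symm)

/-- the main step -/
theorem no_affine (hn : 4 ≤ n) (F P : (Fin n → ZMod 2) → (Fin n → ZMod 2)) (hF : DegLE 2 F)
    (hA : IsAPN F) (hP : IsOrthoDerivative F P) (b u : Fin n → ZMod 2) (c : ZMod 2) (hb : b ≠ 0)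
    (h : ∀ x, dot b (P x) = dot u x + c) : False := by
  classical
  have hc : c = 0 := by
    have := h 0
    rw [hP.1, dot_zero, dot_zero, zero_add] at this
    exact this.symm
  subst hc
  have h3 := third hF
  obtain ⟨B, hB⟩ : ∃ B : (Fin n → ZMod 2) → (Fin n → ZMod 2) → (Fin n → ZMod 2),
      ∀ x y, B x y = F (x + y) + F x + F y + F 0 := ⟨_, fun _ _ => rfl⟩
  have hsymm : ∀ x y, B x y = B y x := by
    intro x y
    rw [hB, hB, add_comm y x]
    abel
  have hchar : ∀ x y : Fin n → ZMod 2, x + y = 0 → x = y := by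
    intro x y hxy
    calc x = x + y + y := by rw [add_assoc, add_self', add_zero]
      _ = y := by rw [hxy, zero_add]
  have hadd : ∀ x y z, B x (y + z) = B x y + B x z := by
    intro x y z
    apply hchar
    have h4 := h3 x y z
    rw [hB, hB, hB]
    have e1 : x + (y + z) = x + y + z := by abel
    rw [e1]
    have e2 : ∀ a b c d e f g h : Fin n → ZMod 2,
        a + b + c + d + (e + b + f + d + (g + b + h + d)) =
          a + e + g + c + b + f + h + d + ((b + b) + (d + d)) := by
      intro a b c d e f g h; abel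
    rw [e2, add_self', add_self', add_zero, add_zero, h4]
  have hself : ∀ x, B x x = 0 := by
    intro x
    rw [hB, add_self']
    have e2 : ∀ a b : Fin n → ZMod 2, a + b + b + a = (a + a) + (b + b) := by
      intro a b; abel
    rw [e2, add_self', add_self', add_zero]
  have hBD : ∀ a x, D F a x + D F a 0 = B a x := by
    intro a x
    rw [D, D, hB, zero_add, add_comm x a]
    abel
  have hker : ∀ a x, a ≠ 0 → B a x = 0 → x = 0 ∨ x = a := by
    intro a x ha hx
    by_contra hne
    push Not at hne
    have h1 := hA a ha (D F a 0)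
    have h2 : ({0, a, x} : Finset (Fin n → ZMod 2)) ⊆
        univ.filter fun y => D F a y = D F a 0 := by
      intro y hy
      rw [mem_filter]
      refine ⟨mem_univ _, ?_⟩
      simp only [mem_insert, mem_singleton] at hy
      rcases hy with rfl | rfl | rfl
      · rfl
      · apply hchar; rw [hBD, hself]
      · apply hchar; rw [hBD, hx]
    have h4 := card_le_card h2
    rw [card_insert_of_notMem, card_insert_of_notMem, card_singleton] at h4
    · omega
    · rw [mem_singleton]; exact fun h => hne.2 h.symm
    · rw [mem_insert, mem_singleton]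
      rintro (h | h)
      · exact ha h.symm
      · exact hne.1 h.symm
  -- linear maps
  have hlin : ∀ a, ∃ f : (Fin n → ZMod 2) →ₗ[ZMod 2] (Fin n → ZMod 2), ∀ x, f x = B a x :=
    fun a => ⟨(AddMonoidHom.mk' (B a) (hadd a)).toZModLinearMap 2, fun _ => rfl⟩
  have hdot : ∀ v : Fin n → ZMod 2, ∃ f : (Fin n → ZMod 2) →ₗ[ZMod 2] ZMod 2,
      ∀ x, f x = dot v x :=
    fun v => ⟨(AddMonoidHom.mk' (dot v) (dot_add v)).toZModLinearMap 2, fun _ => rfl⟩
  have hrange : ∀ a, a ≠ 0 → (dot b (P a) = 0 ↔ ∃ y, B a y = b) := by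
    intro a ha
    obtain ⟨f, hf⟩ := hlin a
    obtain ⟨l, hl⟩ := hdot (P a)
    have hle : LinearMap.range f ≤ LinearMap.ker l := by
      rintro _ ⟨x, rfl⟩
      rw [LinearMap.mem_ker, hl, hf, ← hBD]
      exact (hP.2 a ha).2 x
    have hkerf : Module.finrank (ZMod 2) (LinearMap.ker f) = 1 := by
      have : LinearMap.ker f = Submodule.span (ZMod 2) {a} := by
        apply le_antisymm
        · intro x hx
          rw [LinearMap.mem_ker, hf] at hx
          rcases hker a x ha hx with h1 | h1
          · rw [h1]; exact Submodule.zero_mem _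
          · rw [h1]; exact Submodule.mem_span_singleton_self a
        · rw [Submodule.span_le, Set.singleton_subset_iff, SetLike.mem_coe, LinearMap.mem_ker, hf,
            hself]
      rw [this, finrank_span_singleton ha]
    have hrf := LinearMap.finrank_range_add_finrank_ker f
    rw [hkerf, Module.finrank_fin_fun] at hrf
    have hlt : Module.finrank (ZMod 2) (LinearMap.ker l) < n := by
      have h1 : LinearMap.ker l ≠ ⊤ := by
        intro htop
        obtain ⟨w, hw⟩ := exists_dot_eq_one (P a) (hP.2 a ha).1
        have : w ∈ LinearMap.ker l := by rw [htop]; exact Submodule.mem_top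
        rw [LinearMap.mem_ker, hl, dot_comm, hw] at this
        exact one_ne_zero this
      have h2 := Submodule.finrank_lt h1
      rwa [Module.finrank_fin_fun] at h2
    have heq : LinearMap.range f = LinearMap.ker l :=
      Submodule.eq_of_le_of_finrank_le hle (by omega)
    rw [dot_comm, ← hl, ← LinearMap.mem_ker, ← heq, LinearMap.mem_range]
    simp only [hf]
  obtain ⟨v, hv⟩ := exists_dot_eq_one b hb
  obtain ⟨l, hl⟩ := hdot u
  let g : (Fin n → ZMod 2) → ZMod 2 := fun z => 1 + dot v (F z + F 0)
  have hg : ∀ a y, B a y = b → g a + g y + g (a + y) = 0 := by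
    intro a y hay
    have h1 : g a + g y + g (a + y) = dot v (B a y) + 1 := by
      rw [hB]
      simp only [g, dot_add]
      generalize dot v (F a) = t1
      generalize dot v (F y) = t2
      generalize dot v (F (a + y)) = t3
      generalize dot v (F 0) = t4
      revert t1 t2 t3 t4
      decide
    rw [h1, hay, hv]
    decide
  have hzero : ∀ x, B x 0 = 0 := by
    intro x
    have := hadd x 0 0
    rw [add_zero] at this
    simpa using this
  -- the sum over the nonzero vectors of the kernel
  have hsum1 := sum_lines B hsymm hadd hself hker b hb g hg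
    (univ.filter fun a => a ≠ 0 ∧ dot u a = 0) (by
      intro a
      rw [mem_filter]
      constructor
      · rintro ⟨-, ha, h1⟩
        refine (hrange a ha).1 ?_
        rw [h a, h1, add_zero]
      · rintro ⟨y, hy⟩
        have ha : a ≠ 0 := by
          rintro rfl
          rw [hsymm, hzero] at hy
          exact hb hy.symm
        refine ⟨mem_univ _, ha, ?_⟩
        have := (hrange a ha).2 ⟨y, hy⟩
        rw [h a, add_zero] at this
        exact this)
  -- the sum over the kernel
  have hfin : 3 ≤ Module.finrank (ZMod 2) (LinearMap.ker l) := by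
    have h1 := LinearMap.finrank_range_add_finrank_ker l
    rw [Module.finrank_fin_fun] at h1
    have h2 := Submodule.finrank_le (LinearMap.range l)
    rw [Module.finrank_self] at h2
    omega
  obtain ⟨m, hm⟩ : ∃ m, Module.finrank (ZMod 2) (LinearMap.ker l) = m + 3 :=
    ⟨_, (Nat.sub_add_cancel hfin).symm⟩
  have e : (Fin (m + 3) → ZMod 2) ≃ₗ[ZMod 2] LinearMap.ker l :=
    LinearEquiv.ofFinrankEq _ _ (by rw [hm, Module.finrank_fin_fun])
  have hsum2 : ∑ x : Fin (m + 3) → ZMod 2, g (e x) = 0 := by
    refine sum_third m _ fun x y z => ?_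
    have h4 := congrArg (dot v) (h3 (e x) (e y) (e z))
    rw [dot_zero] at h4
    simp only [dot_add] at h4
    simp only [g, map_add, Submodule.coe_add, map_zero, Submodule.coe_zero, dot_add]
    revert h4
    generalize dot v (F ((e x : Fin n → ZMod 2) + e y + e z)) = t1
    generalize dot v (F ((e x : Fin n → ZMod 2) + e y)) = t2
    generalize dot v (F ((e x : Fin n → ZMod 2) + e z)) = t3
    generalize dot v (F ((e y : Fin n → ZMod 2) + e z)) = t4
    generalize dot v (F (e x)) = t5
    generalize dot v (F (e y)) = t6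
    generalize dot v (F (e z)) = t7
    generalize dot v (F 0) = t8
    revert t1 t2 t3 t4 t5 t6 t7 t8
    decide
  have hsum3 : ∑ a ∈ univ.filter (fun a => dot u a = 0), g a = 0 := by
    refine Eq.trans (Eq.symm ?_) hsum2
    refine sum_bij (fun x _ => (e x : Fin n → ZMod 2)) ?_ ?_ ?_ ?_
    · intro x _
      rw [mem_filter]
      refine ⟨mem_univ _, ?_⟩
      exact (hl _).symm.trans (LinearMap.mem_ker.1 (e x).2)
    · intro x _ y _ hxy
      exact e.injective (Subtype.ext hxy)
    · intro a ha
      have ha2 : a ∈ LinearMap.ker l := LinearMap.mem_ker.2 ((hl a).trans (mem_filter.1 ha).2)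
      exact ⟨e.symm ⟨a, ha2⟩, mem_univ _, by rw [e.apply_symm_apply]⟩
    · intro x _
      rfl
  have hsplit : univ.filter (fun a => dot u a = 0) =
      insert 0 (univ.filter fun a => a ≠ 0 ∧ dot u a = 0) := by
    ext a
    simp only [mem_filter, mem_univ, true_and, mem_insert]
    constructor
    · intro h1
      by_cases h2 : a = 0
      · exact Or.inl h2
      · exact Or.inr ⟨h2, h1⟩
    · rintro (h1 | h1)
      · rw [h1, dot_zero]
      · exact h1.2
  rw [hsplit, sum_insert (by simp), hsum1, add_zero] at hsum3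
  simp only [g, add_self', dot_zero, add_zero] at hsum3
  exact one_ne_zero hsum3

end

/-- the example in dimension 3 -/
def F3 (x : Fin 3 → ZMod 2) : Fin 3 → ZMod 2 := fun i => ∏ j ∈ univ.erase i, x j

lemma F3_quadratic : IsQuadratic F3 := by
  refine ⟨⟨fun i S => if S = univ.erase i then 1 else 0, fun i S hS => ?_, fun x i => ?_⟩, ?_⟩
  · refine if_neg ?_
    rintro rfl
    rw [card_erase_of_mem (mem_univ _), card_univ, Fintype.card_fin] at hS
    omega
  · rw [F3]
    simp
  · rintro ⟨c, hc, h⟩
    have h1 : ∀ x y : Fin 3 → ZMod 2, F3 (x + y) + F3 x + F3 y + F3 0 = 0 := by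
      intro x y
      funext i
      simp only [Pi.add_apply, Pi.zero_apply]
      rw [h, h, h, h, ← sum_add_distrib, ← sum_add_distrib, ← sum_add_distrib]
      refine sum_eq_zero fun S _ => ?_
      by_cases hS : 1 < S.card
      · simp [hc i S hS]
      · have h3 : S.card = 0 ∨ S.card = 1 := by omega
        rcases h3 with h3 | h3
        · rw [card_eq_zero] at h3
          subst h3
          simp only [prod_empty, mul_one]
          generalize c i ∅ = t
          revert t
          decide
        · obtain ⟨j, rfl⟩ := card_eq_one.1 h3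
          simp only [prod_singleton, Pi.add_apply, Pi.zero_apply]
          generalize c i {j} = t
          generalize x j = x1
          generalize y j = y1
          revert t x1 y1
          decide
    exact absurd (h1 ![1, 0, 0] ![0, 1, 0]) (by decide)

lemma F3_apn : IsAPN F3 := by
  unfold IsAPN D
  decide

lemma F3_ortho : IsOrthoDerivative F3 id := by
  refine ⟨rfl, ?_⟩
  unfold dot D
  decide

/-- For `n = 3` there is a quadratic APN function whose ortho-derivative has nonlinearity `0`. For
`n ≥ 4` the ortho-derivative of every quadratic APN function has positive nonlinearity. -/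
theorem result :
    (∃ F P : (Fin 3 → ZMod 2) → (Fin 3 → ZMod 2),
      IsQuadratic F ∧ IsAPN F ∧ IsOrthoDerivative F P ∧ NL P = 0) ∧
    ∀ n, 4 ≤ n → ∀ F P : (Fin n → ZMod 2) → (Fin n → ZMod 2),
      IsQuadratic F → IsAPN F → IsOrthoDerivative F P → 0 < NL P := by
  refine ⟨⟨F3, id, F3_quadratic, F3_apn, F3_ortho, ?_⟩, ?_⟩
  · unfold NL
    rw [Nat.sInf_eq_zero]
    left
    refine ⟨Pi.single 0 1, Pi.single 0 1, 0, ?_, ?_⟩
    · intro h
      have := congrFun h 0
      simp at this
    · simp
  · intro n hn F P hF hA hP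
    rw [Nat.pos_iff_ne_zero]
    intro h0
    unfold NL at h0
    rw [Nat.sInf_eq_zero] at h0
    rcases h0 with ⟨b, u, c, hb, h⟩ | h
    · refine no_affine hn F P hF.1 hA hP b u c hb fun x => ?_
      have h1 := card_eq_zero.1 h.symm
      by_contra hx
      have : x ∈ univ.filter fun x => dot b (P x) ≠ dot u x + c := by simp [hx]
      rw [h1] at this
      simp at this
    · have : ((univ.filter fun x => dot (Pi.single ⟨0, by omega⟩ 1) (P x) ≠ dot 0 x + 0).card) ∈
          {m | ∃ (b u : Fin n → ZMod 2) (c : ZMod 2), b ≠ 0 ∧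
            m = (univ.filter fun x => dot b (P x) ≠ dot u x + c).card} := by
        refine ⟨Pi.single ⟨0, by omega⟩ 1, 0, 0, ?_, rfl⟩
        intro h
        have := congrFun h ⟨0, by omega⟩
        simp at this
      rw [h] at this
      exact this

end Pool.Agent.Results.MP_4cfb12_co.OnlyDimThree
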